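import Pool.Agent.Helper1.SG.Fib
import Pool.Agent.Helper86.SG.Defs

/-!
# Signed Johnson graphs: package FIB of helper86
-/

set_option autoImplicit false

open Finset

namespace Pool.Agent.Helper1.SG

/-- **package FIB** -/
theorem fib86 : _root_.SG.FIBStm := by
  intro n k d F hk hF S hS hd
  have hsgn : ∀ v ∈ SJ.fib F S, Sgn S v := by
    intro v hv
    have hv' : v ∈ F ∧ SJ.supp v = S := by
      classical
      exact mem_filter.1 hv
    exact ⟨(hF v hv'.1).1, hv'.2⟩
  have hmem : ∀ v, v ∈ SJ.fib F S ↔ v ∈ F ∧ SJ.supp v = S := by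
    intro v
    classical
    exact mem_filter
  obtain ⟨h1, h2⟩ := fib_struct (d := d) S (by omega) (SJ.fib F S) hsgn (by
    intro v hv w hw
    have h3 := hd v ((hmem v).1 hv).1 w ((hmem w).1 hw).1 ((hmem v).1 hv).2 ((hmem w).1 hw).2
    refine le_trans (card_le_card ?_) h3
    intro i hi
    rw [mem_filter] at hi ⊢
    refine ⟨?_, hi.2⟩
    by_contra h'
    exact hi.2 (by rw [(hsgn v hv).zero h', (hsgn w hw).zero h']))
  rw [hS] at h1 h2
  refine ⟨h1, fun h3 => ?_⟩
  obtain ⟨f, hf, c, hc, hv⟩ := h2 hk (le_antisymm h1 h3)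
  refine ⟨f, c, hf, hc, ?_⟩
  intro v hvV hvS
  have h4 : (S.erase f).filter (fun i => v i ≠ c i) = S.filter (fun i => i ≠ f ∧ v i ≠ c i) := by
    ext i
    simp only [mem_filter, mem_erase]
    tauto
  rw [h4]
  have h5 := hv v
  rw [hmem] at h5
  constructor
  · intro h
    exact (h5.1 ⟨h, hvS⟩).2
  · intro h
    exact (h5.2 ⟨⟨hvV.1, hvS⟩, h⟩).1

end Pool.Agent.Helper1.SG
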