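import Pool.Agent.Helper1.SG.KL2
import Pool.Agent.Helper72.KL.REV
import Pool.Agent.Helper86.SJ.Defs

/-!
# Signed Johnson graphs: the fibres over the supports (Kleitman's theorem for sign vectors)
-/

set_option autoImplicit false

open Finset

namespace Pool.Agent.Helper1.SG

theorem kl3 : Pool.Agent.Helper87.SG.KL3Stm :=
  Pool.Agent.Helper87.SG.kl3 (kl2 fun ι _ _ d F x hm hF C hC =>
    Pool.Agent.Helper72.KL.rev ι d F x hm hF C hC)

/-- sign vectors with support `S` -/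
def Sgn {n : ℕ} (S : Finset (Fin n)) (v : Fin n → ℤ) : Prop :=
  (∀ i, v i = -1 ∨ v i = 0 ∨ v i = 1) ∧ SJ.supp v = S

theorem Sgn.zero {n : ℕ} {S : Finset (Fin n)} {v : Fin n → ℤ} (h : Sgn S v) {i : Fin n}
    (hi : i ∉ S) : v i = 0 := by
  rw [← h.2] at hi
  by_contra h'
  exact hi (by simp [SJ.supp, h'])

theorem Sgn.one {n : ℕ} {S : Finset (Fin n)} {v : Fin n → ℤ} (h : Sgn S v) {i : Fin n}
    (hi : i ∈ S) : v i = 1 ∨ v i = -1 := by
  rw [← h.2] at hi
  have h' : v i ≠ 0 := by simpa [SJ.supp] using hi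
  rcases h.1 i with h1 | h1 | h1
  · exact Or.inr h1
  · exact absurd h1 h'
  · exact Or.inl h1

/-- the set of the minus signs -/
def neg {n : ℕ} (S : Finset (Fin n)) (v : Fin n → ℤ) : Finset {x // x ∈ S} :=
  univ.filter fun i => v i = -1

theorem mem_neg {n : ℕ} {S : Finset (Fin n)} {v : Fin n → ℤ} {i : {x // x ∈ S}} :
    i ∈ neg S v ↔ v i = -1 := by
  simp [neg]

theorem neg_inj {n : ℕ} {S : Finset (Fin n)} {v w : Fin n → ℤ} (hv : Sgn S v) (hw : Sgn S w)
    (h : neg S v = neg S w) : v = w := by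
  funext i
  by_cases hi : i ∈ S
  · have h1 : (⟨i, hi⟩ : {x // x ∈ S}) ∈ neg S v ↔ (⟨i, hi⟩ : {x // x ∈ S}) ∈ neg S w := by rw [h]
    rw [mem_neg, mem_neg] at h1
    have h1' : v i = -1 ↔ w i = -1 := h1
    rcases hv.one hi with h2 | h2 <;> rcases hw.one hi with h3 | h3
    · rw [h2, h3]
    · exact absurd (h1'.2 h3) (by rw [h2]; norm_num)
    · exact absurd (h1'.1 h2) (by rw [h3]; norm_num)
    · rw [h2, h3]
  · rw [hv.zero hi, hw.zero hi]

theorem mem_symm {n : ℕ} {S : Finset (Fin n)} {v w : Fin n → ℤ} (hv : Sgn S v) (hw : Sgn S w)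
    (i : {x // x ∈ S}) : i ∈ symmDiff (neg S v) (neg S w) ↔ v i ≠ w i := by
  rw [mem_symmDiff, mem_neg, mem_neg]
  rcases hv.one i.2 with h2 | h2 <;> rcases hw.one i.2 with h3 | h3 <;> rw [h2, h3] <;> norm_num

theorem card_symm {n : ℕ} {S : Finset (Fin n)} {v w : Fin n → ℤ} (hv : Sgn S v) (hw : Sgn S w) :
    #(symmDiff (neg S v) (neg S w)) = #(univ.filter fun i => v i ≠ w i) := by
  have h : univ.filter (fun i => v i ≠ w i) =
      (symmDiff (neg S v) (neg S w)).map (Function.Embedding.subtype _) := by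
    ext i
    rw [mem_filter, mem_map]
    constructor
    · rintro ⟨-, h1⟩
      have hi : i ∈ S := by
        by_contra h'
        exact h1 (by rw [hv.zero h', hw.zero h'])
      exact ⟨⟨i, hi⟩, (mem_symm hv hw _).2 h1, rfl⟩
    · rintro ⟨j, hj, rfl⟩
      exact ⟨mem_univ _, (mem_symm hv hw _).1 hj⟩
  rw [h, card_map]

theorem card_erase_symm {n : ℕ} {S : Finset (Fin n)} {v w : Fin n → ℤ} (hv : Sgn S v)
    (hw : Sgn S w) (f : {x // x ∈ S}) :
    #((symmDiff (neg S v) (neg S w)).erase f) = #(S.filter fun i : Fin n => i ≠ (f : Fin n) ∧ v i ≠ w i) := by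
  have h : S.filter (fun i : Fin n => i ≠ (f : Fin n) ∧ v i ≠ w i) =
      ((symmDiff (neg S v) (neg S w)).erase f).map (Function.Embedding.subtype _) := by
    ext i
    rw [mem_filter, mem_map]
    constructor
    · rintro ⟨hi, h0, h1⟩
      exact ⟨⟨i, hi⟩, mem_erase.2 ⟨fun h => h0 (by rw [← h]), (mem_symm hv hw _).2 h1⟩, rfl⟩
    · rintro ⟨j, hj, rfl⟩
      rw [mem_erase] at hj
      exact ⟨j.2, fun h => hj.1 (Subtype.ext h), (mem_symm hv hw _).1 hj.2⟩
  rw [h, card_map]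

/-- the sign vector with a given set of minus signs -/
def vec {n : ℕ} (S : Finset (Fin n)) (A : Finset {x // x ∈ S}) (i : Fin n) : ℤ :=
  if h : i ∈ S then (if (⟨i, h⟩ : {x // x ∈ S}) ∈ A then -1 else 1) else 0

theorem sgn_vec {n : ℕ} (S : Finset (Fin n)) (A : Finset {x // x ∈ S}) : Sgn S (vec S A) := by
  constructor
  · intro i
    unfold vec
    split_ifs <;> simp
  · ext i
    simp only [SJ.supp, mem_filter, mem_univ, true_and]
    unfold vec
    split_ifs with h h' <;> simp [h]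

theorem neg_vec {n : ℕ} (S : Finset (Fin n)) (A : Finset {x // x ∈ S}) : neg S (vec S A) = A := by
  ext i
  rw [mem_neg]
  unfold vec
  rw [dif_pos i.2]
  split_ifs with h
  · simp only [Subtype.coe_eta] at h
    simp [h]
  · simp only [Subtype.coe_eta] at h
    simp [h]

/-- **Kleitman's theorem for sign vectors with a given support** -/
theorem fib_struct {n d : ℕ} (S : Finset (Fin n)) (hS : 2 * d + 2 ≤ #S)
    (Fb : Finset (Fin n → ℤ)) (hv : ∀ v ∈ Fb, Sgn S v)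
    (hd : ∀ v ∈ Fb, ∀ w ∈ Fb, #(univ.filter fun i => v i ≠ w i) ≤ 2 * d + 1) :
    #Fb ≤ 2 * ∑ i ∈ range (d + 1), (#S - 1).choose i ∧
    (2 * d + 3 ≤ #S → #Fb = 2 * ∑ i ∈ range (d + 1), (#S - 1).choose i →
      ∃ f ∈ S, ∃ c : Fin n → ℤ, (∀ i, c i = 1 ∨ c i = -1) ∧
        ∀ v, v ∈ Fb ↔ (Sgn S v ∧ #(S.filter fun i => i ≠ f ∧ v i ≠ c i) ≤ d)) := by
  obtain ⟨h1, h2⟩ := kl3 {x // x ∈ S} d (Fb.image (neg S)) (by rwa [Fintype.card_coe]) (by
    intro A hA B hB
    rw [mem_image] at hA hB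
    obtain ⟨v, hvF, rfl⟩ := hA
    obtain ⟨w, hwF, rfl⟩ := hB
    rw [card_symm (hv v hvF) (hv w hwF)]
    exact hd v hvF w hwF)
  rw [Fintype.card_coe, card_image_of_injOn fun v hvF w hwF h => neg_inj (hv v hvF) (hv w hwF) h]
    at h1 h2
  refine ⟨h1, fun h3 h4 => ?_⟩
  obtain ⟨f, C, hC⟩ := h2 h3 h4
  obtain ⟨c, hc⟩ : ∃ c : Fin n → ℤ, ∀ i, c i = if i ∈ S then vec S C i else 1 := ⟨_, fun _ => rfl⟩
  have hcS : ∀ i ∈ S, c i = vec S C i := fun i hi => by rw [hc, if_pos hi]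
  refine ⟨f, f.2, c, ?_, ?_⟩
  · intro i
    by_cases hi : i ∈ S
    · rw [hcS i hi]
      exact (sgn_vec S C).one hi
    · rw [hc, if_neg hi]
      exact Or.inl rfl
  · intro v
    have h5 : ∀ v, Sgn S v → ((neg S v ∈ Fb.image (neg S)) ↔
        #(S.filter fun i : Fin n => i ≠ (f : Fin n) ∧ v i ≠ c i) ≤ d) := by
      intro v hvS
      rw [hC, mem_filter]
      have h6 := card_erase_symm hvS (sgn_vec S C) f
      rw [neg_vec] at h6
      rw [h6]
      have h7 : S.filter (fun i : Fin n => i ≠ (f : Fin n) ∧ v i ≠ vec S C i) =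
          S.filter (fun i : Fin n => i ≠ (f : Fin n) ∧ v i ≠ c i) :=
        filter_congr fun i hi => by rw [hcS i hi]
      rw [h7]
      exact ⟨fun h => h.2, fun h => ⟨mem_univ _, h⟩⟩
    constructor
    · intro h
      exact ⟨hv v h, (h5 v (hv v h)).1 (mem_image_of_mem _ h)⟩
    · rintro ⟨h, h'⟩
      have h8 := (h5 v h).2 h'
      rw [mem_image] at h8
      obtain ⟨w, hw, hwv⟩ := h8
      rwa [← neg_inj (hv w hw) h hwv]

end Pool.Agent.Helper1.SG
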