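import Pool.Agent.Helper72.KL.KL1
import Pool.Agent.Helper87.SG.KL3

/-!
# Kleitman's diameter theorem with uniqueness, even diameters (package KL2 of SG)
-/

set_option autoImplicit false

open Finset

namespace Pool.Agent.Helper1.SG

/-- package REV: the reversal of one down compression -/
def RevStm : Prop := ∀ (ι : Type) [Fintype ι] [DecidableEq ι] (d : ℕ) (F : Finset (Finset ι))
  (x : ι), 2 * d + 2 ≤ Fintype.card ι → (∀ A ∈ F, ∀ B ∈ F, #(symmDiff A B) ≤ 2 * d) →
  ∀ C : Finset ι, Down.compression x F = univ.filter (fun A => #(symmDiff A C) ≤ d) →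
  ∃ C' : Finset ι, F = univ.filter (fun A => #(symmDiff A C') ≤ d)

section

variable {ι : Type} [DecidableEq ι]

theorem mem_comp {x : ι} {F : Finset (Finset ι)} {A : Finset ι} :
    A ∈ Down.compression x F ↔ (A ∈ F ∧ A.erase x ∈ F) ∨ (A ∉ F ∧ x ∉ A ∧ insert x A ∈ F) := by
  rw [Down.mem_compression]
  constructor
  · rintro (h | ⟨h1, h2⟩)
    · exact Or.inl h
    · refine Or.inr ⟨h1, fun h => h1 ?_, h2⟩
      rwa [insert_eq_self.2 h] at h2
  · rintro (h | ⟨h1, -, h2⟩)
    · exact Or.inl h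
    · exact Or.inr ⟨h1, h2⟩

theorem diam_comp {D : ℕ} {F : Finset (Finset ι)} (x : ι)
    (hF : ∀ A ∈ F, ∀ B ∈ F, #(symmDiff A B) ≤ D) :
    ∀ A ∈ Down.compression x F, ∀ B ∈ Down.compression x F, #(symmDiff A B) ≤ D := by
  have hon : ∀ A ∈ F, A.erase x ∈ F → ∀ B, x ∉ B → insert x B ∈ F → #(symmDiff A B) ≤ D := by
    intro A hA hA' B hxB hB
    by_cases hxA : x ∈ A
    · refine le_trans (card_le_card ?_) (hF _ hA' _ hB)
      intro y
      simp only [mem_symmDiff, mem_erase, mem_insert]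
      by_cases hy : y = x
      · subst hy
        simp
      · tauto
    · refine le_trans (card_le_card ?_) (hF _ hA _ hB)
      intro y
      simp only [mem_symmDiff, mem_insert]
      by_cases hy : y = x
      · subst hy
        simp [hxA, hxB]
      · tauto
  intro A hA B hB
  rw [mem_comp] at hA hB
  rcases hA with ⟨h1, h2⟩ | ⟨h1, h2, h3⟩ <;> rcases hB with ⟨h4, h5⟩ | ⟨h4, h5, h6⟩
  · exact hF A h1 B h4
  · exact hon A h1 h2 B h5 h6
  · rw [symmDiff_comm]
    exact hon B h4 h5 A h2 h3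
  · refine le_trans (card_le_card ?_) (hF _ h3 _ h6)
    intro y
    simp only [mem_symmDiff, mem_insert]
    by_cases hy : y = x
    · subst hy
      simp [h2, h5]
    · tauto

/-- the weight decreases -/
theorem weight_comp {F : Finset (Finset ι)} {x : ι} {A : Finset ι} (hA : A ∈ F) (hx : x ∈ A)
    (hne : A.erase x ∉ F) : ∑ B ∈ Down.compression x F, #B < ∑ B ∈ F, #B := by
  obtain ⟨φ, hφ⟩ : ∃ φ : Finset ι → Finset ι,
    ∀ B, φ B = if B.erase x ∈ F then B else B.erase x := ⟨_, fun _ => rfl⟩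
  have himg : Down.compression x F = F.image φ := by
    ext B
    rw [mem_comp, mem_image]
    constructor
    · rintro (⟨h1, h2⟩ | ⟨h1, h2, h3⟩)
      · exact ⟨B, h1, by rw [hφ, if_pos h2]⟩
      · exact ⟨insert x B, h3, by rw [hφ, erase_insert h2, if_neg h1]⟩
    · rintro ⟨B, hB, rfl⟩
      rw [hφ]
      split_ifs with h
      · exact Or.inl ⟨hB, h⟩
      · right
        refine ⟨h, notMem_erase x B, ?_⟩
        have hxB : x ∈ B := by
          by_contra h'
          exact h (by rw [erase_eq_of_notMem h']; exact hB)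
        rwa [insert_erase hxB]
  have hinj : Set.InjOn φ F := by
    rw [← card_image_iff, ← himg, Down.card_compression]
  rw [himg, sum_image fun a ha b hb h => hinj ha hb h]
  refine sum_lt_sum (fun B _ => ?_) ⟨A, hA, ?_⟩
  · rw [hφ]
    split_ifs
    · exact le_rfl
    · exact card_le_card (erase_subset _ _)
  · rw [hφ, if_neg hne, card_erase_of_mem hx]
    have : 0 < #A := card_pos.2 ⟨x, hx⟩
    omega

end

/-- down-closed families -/
theorem base {ι : Type} [Fintype ι] [DecidableEq ι] (d : ℕ) (F : Finset (Finset ι))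
    (hm : 2 * d + 1 ≤ Fintype.card ι) (hF : ∀ A ∈ F, ∀ B ∈ F, #(symmDiff A B) ≤ 2 * d)
    (hdc : ∀ A ∈ F, ∀ x ∈ A, A.erase x ∈ F) :
    #F ≤ ∑ i ∈ range (d + 1), (Fintype.card ι).choose i ∧
    (2 * d + 2 ≤ Fintype.card ι → #F = ∑ i ∈ range (d + 1), (Fintype.card ι).choose i →
      ∃ C : Finset ι, F = univ.filter (fun A => #(symmDiff A C) ≤ d)) := by
  have hsub : ∀ n : ℕ, ∀ A ∈ F, ∀ B, B ⊆ A → #(A \ B) = n → B ∈ F := by
    intro n
    induction n with
    | zero =>
      intro A hA B hB h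
      rw [card_eq_zero, sdiff_eq_empty_iff_subset] at h
      rwa [subset_antisymm hB h]
    | succ n ih =>
      intro A hA B hB h
      obtain ⟨x, hx⟩ : (A \ B).Nonempty := by
        rw [← card_pos]
        omega
      rw [mem_sdiff] at hx
      refine ih (A.erase x) (hdc A hA x hx.1) B ?_ ?_
      · intro y hy
        exact mem_erase.2 ⟨fun h' => hx.2 (h' ▸ hy), hB hy⟩
      · have h1 : A.erase x \ B = (A \ B).erase x := by
          ext y
          simp only [mem_sdiff, mem_erase]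
          tauto
        rw [h1, card_erase_of_mem (mem_sdiff.2 hx)]
        omega
  have hun : ∀ A ∈ F, ∀ B ∈ F, #(A ∪ B) ≤ 2 * d := by
    intro A hA B hB
    have h1 := hF A hA (B \ A) (hsub _ B hB _ sdiff_subset rfl)
    have h2 : symmDiff A (B \ A) = A ∪ B := by
      ext y
      simp only [mem_symmDiff, mem_sdiff, mem_union]
      tauto
    rwa [h2] at h1
  obtain ⟨g, hg⟩ : ∃ g : ι ↪ ℕ, ∀ i, g i < Fintype.card ι :=
    ⟨(Fintype.equivFin ι).toEmbedding.trans Fin.valEmbedding, fun i => (Fintype.equivFin ι i).2⟩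
  have hinj : Function.Injective (fun A : Finset ι => A.map g) := Finset.map_injective g
  obtain ⟨h1, h2⟩ := Pool.Agent.Helper72.KL.kl1 (Fintype.card ι) d hm
    (F.image fun A => A.map g) (by
      intro A hA
      rw [mem_image] at hA
      obtain ⟨B, -, rfl⟩ := hA
      intro y hy
      rw [mem_map] at hy
      obtain ⟨i, -, rfl⟩ := hy
      exact mem_range.2 (hg i)) (by
      intro A hA B hB
      rw [mem_image] at hA hB
      obtain ⟨A, hA, rfl⟩ := hA
      obtain ⟨B, hB, rfl⟩ := hB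
      rw [← map_union, card_map]
      exact hun A hA B hB)
  rw [card_image_of_injective _ hinj] at h1 h2
  refine ⟨h1, fun h3 h4 => ⟨∅, ?_⟩⟩
  have h5 := h2 h3 h4
  ext A
  have h6 : A ∈ F ↔ A.map g ∈ F.image fun A => A.map g := by
    rw [mem_image]
    exact ⟨fun h => ⟨A, h, rfl⟩, fun ⟨B, hB, h⟩ => hinj h ▸ hB⟩
  rw [h6, h5, mem_filter, mem_filter, mem_powerset, card_map]
  have h7 : symmDiff A ∅ = A := by
    ext y
    simp [mem_symmDiff]
  rw [h7]
  refine ⟨fun h => ⟨mem_univ _, h.2⟩, fun h => ⟨?_, h.2⟩⟩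
  intro y hy
  rw [mem_map] at hy
  obtain ⟨i, -, rfl⟩ := hy
  exact mem_range.2 (hg i)

/-- **Kleitman's theorem for even diameters, with uniqueness** -/
theorem kl2 (hrev : RevStm) : Pool.Agent.Helper87.SG.KL2Stm := by
  intro ι _ _ d F hm hF
  obtain ⟨p, hp⟩ : ∃ p, ∑ B ∈ F, #B = p := ⟨_, rfl⟩
  induction p using Nat.strong_induction_on generalizing F with
  | _ p ih =>
  by_cases hdc : ∀ A ∈ F, ∀ x ∈ A, A.erase x ∈ F
  · exact base d F hm hF hdc
  · push Not at hdc
    obtain ⟨A, hA, x, hx, hne⟩ := hdc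
    have hlt := weight_comp hA hx hne
    rw [hp] at hlt
    obtain ⟨h1, h2⟩ := ih _ hlt (Down.compression x F) (diam_comp x hF) rfl
    rw [Down.card_compression] at h1 h2
    refine ⟨h1, fun h3 h4 => ?_⟩
    obtain ⟨C, hC⟩ := h2 h3 h4
    exact hrev ι d F x h3 hF C hC

end Pool.Agent.Helper1.SG
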